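import Pool.Agent.Lib.MP_43e680_lc.Proof5

open Pool.Agent.Lib.MP_43e680_lc

/-- **Theorem.** For every field `F` (in particular for every countable field), the least
cardinality `non(ℳ)` of a nonmeager set of reals is at most `𝔞_{vec,F}`, the least cardinality of
an infinite mad family of subspaces of the `F`-vector space of countably infinite dimension. -/
theorem Pool.Agent.Results.MP_43e680_lc.NonMLeAVec.result (F : Type) [Field F] :
    nonM ≤ aVec F :=
  nonM_le_aVec F
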